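import Mathlib

/-! Bounded rank over a subfield gives bounded degrees of ratios. -/

open Module Set

noncomputable section

namespace Pool.Agent.Lib.KB.A26

variable {E F : Type} [Field E] [Field F] [Algebra E F]

/-- one step of a division free elimination -/
theorem elim {ρ : ℕ} (e : Fin ρ → F) (U A : Submodule E F)
    (Φ : (Fin ρ → F) →ₗ[F] (Fin ρ → F))
    (h1 : ∀ (v : Fin ρ → E) i, Φ (fun l => algebraMap E F (v l)) i ∈ U)
    (h2 : ∀ v, Φ v = 0 → ∑ l, v l * e l = 0) (n : Fin ρ → F) (hn : ∑ l, n l * e l = 0)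
    (h0 : Φ n ≠ 0) (hA : ∀ i, Φ n i ∈ A) :
    ∃ Ψ : (Fin ρ → F) →ₗ[F] (Fin ρ → F),
      (∀ (v : Fin ρ → E) i, Ψ (fun l => algebraMap E F (v l)) i ∈ U * A) ∧
      (∀ v, Ψ v = 0 → ∑ l, v l * e l = 0) ∧
      finrank F (LinearMap.ker Φ) < finrank F (LinearMap.ker Ψ) := by
  obtain ⟨j, hj⟩ := Function.ne_iff.1 h0
  have hj' : Φ n j ≠ 0 := hj
  let Ψ : (Fin ρ → F) →ₗ[F] (Fin ρ → F) :=
    Φ n j • Φ - ((LinearMap.proj j).comp Φ).smulRight (Φ n)
  have hΨ : ∀ v i, Ψ v i = Φ v i * Φ n j - Φ v j * Φ n i := fun v i => by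
    simp [Ψ, mul_comm]
  refine ⟨Ψ, fun v i => ?_, fun v hv => ?_, Submodule.finrank_lt_finrank_of_lt ?_⟩
  · rw [hΨ]
    exact sub_mem (Submodule.mul_mem_mul (h1 v i) (hA j)) (Submodule.mul_mem_mul (h1 v j) (hA i))
  · have a : Φ (v - (Φ v j / Φ n j) • n) = 0 := funext fun i => by
      have := congrFun hv i
      rw [hΨ, Pi.zero_apply] at this
      rw [map_sub, map_smul, Pi.sub_apply, Pi.smul_apply, smul_eq_mul, Pi.zero_apply]
      field_simp
      rw [this, mul_zero]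
    have b := h2 _ a
    simp only [Pi.sub_apply, Pi.smul_apply, smul_eq_mul, sub_mul, mul_assoc,
      Finset.sum_sub_distrib, ← Finset.mul_sum, hn, mul_zero, sub_zero] at b
    exact b
  · refine lt_of_le_of_ne (fun v hv => funext fun i => ?_) fun h => h0 ?_
    · rw [hΨ, LinearMap.mem_ker.1 hv]
      simp
    · have : n ∈ LinearMap.ker Ψ := funext fun i => by rw [hΨ, mul_comm, sub_self]; rfl
      rwa [← h] at this

theorem coef {ρ : ℕ} {e : Fin ρ → F} {G : F} (h : G ∈ Submodule.span E (range e)) :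
    ∃ v : Fin ρ → E, ∑ l, algebraMap E F (v l) * e l = G := by
  obtain ⟨v, hv⟩ := (Submodule.mem_span_range_iff_exists_fun E).1 h
  exact ⟨v, by simpa only [Algebra.smul_def] using hv⟩

/-- All ratios at a fixed cost are ratios of elements of one finite dimensional space. -/
theorem ratio (V W : ℕ → Set F) (g : ℕ → F) (hg : ∀ x, g x ≠ 0)
    (hm : ∀ x y, ∀ G ∈ V x, G * g y ∈ W (x + y)) {r : ℕ}
    (hr : ∀ x, ∃ e : Fin r → F, ∀ G ∈ W x, G ∈ Submodule.span E (range e)) :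
    ∃ U : Submodule E F, U.FG ∧ ∀ x, ∀ G ∈ V x, ∀ G' ∈ V x, G' ≠ 0 →
      ∃ p ∈ U, ∃ p' ∈ U, p' ≠ 0 ∧ G * p' = G' * p := by
  by_contra hc
  push Not at hc
  have key : ∀ i : ℕ, ∃ U : Submodule E F, U.FG ∧ ∃ X0, ∀ X, X0 ≤ X → ∀ e : Fin r → F,
      (∀ G ∈ W X, G ∈ Submodule.span E (range e)) → ∃ Φ : (Fin r → F) →ₗ[F] (Fin r → F),
      (∀ (v : Fin r → E) i, Φ (fun l => algebraMap E F (v l)) i ∈ U) ∧
      (∀ v, Φ v = 0 → ∑ l, v l * e l = 0) ∧ i ≤ finrank F (LinearMap.ker Φ) := fun i => by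
    induction i with
    | zero =>
      exact ⟨1, Submodule.fg_unit (I := 1), 0, fun X _ e _ => ⟨LinearMap.id,
        fun v i => Submodule.algebraMap_mem _, fun v hv => by simp [show v = 0 from hv],
        Nat.zero_le _⟩⟩
    | succ i ih =>
      obtain ⟨U, hU, X0, ih⟩ := ih
      obtain ⟨x, G, hG, G', hG', h0, hx⟩ := hc U hU
      refine ⟨U * (U ⊔ U * Submodule.span E {G / G'}),
        hU.mul (hU.sup (hU.mul (Submodule.fg_span_singleton _))), max X0 x, fun X hX e he => ?_⟩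
      obtain ⟨Φ, h1, h2, h3⟩ := ih X (le_of_max_le_left hX) e he
      obtain ⟨y, rfl⟩ := Nat.exists_eq_add_of_le (le_of_max_le_right hX)
      obtain ⟨v, hv⟩ := coef (he _ (hm x y G hG))
      obtain ⟨v', hv'⟩ := coef (he _ (hm x y G' hG'))
      have e1 : ∀ i, Φ ((G / G') • (fun l => algebraMap E F (v' l)) - fun l => algebraMap E F (v l)) i =
          Φ (fun l => algebraMap E F (v' l)) i * (G / G') - Φ (fun l => algebraMap E F (v l)) i :=
        fun i => by rw [map_sub, map_smul, Pi.sub_apply, Pi.smul_apply, smul_eq_mul, mul_comm]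
      obtain ⟨Ψ, p1, p2, p3⟩ := elim e U (U ⊔ U * Submodule.span E {G / G'}) Φ h1 h2
        ((G / G') • (fun l => algebraMap E F (v' l)) - fun l => algebraMap E F (v l)) (by
          simp only [Pi.sub_apply, Pi.smul_apply, smul_eq_mul, sub_mul, mul_assoc,
            Finset.sum_sub_distrib, ← Finset.mul_sum, hv, hv']
          field_simp
          ring) (fun h => by
          have a : Φ (fun l => algebraMap E F (v' l)) ≠ 0 := fun a =>
            mul_ne_zero h0 (hg y) (hv'.symm.trans (h2 _ a))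
          obtain ⟨j, hj⟩ := Function.ne_iff.1 a
          refine hx _ (h1 v j) _ (h1 v' j) hj ?_
          have b := (e1 j).symm.trans (congrFun h j)
          rw [← sub_eq_zero.1 b]
          field_simp) fun i => by
          rw [e1]
          exact sub_mem (Submodule.mem_sup_right (Submodule.mul_mem_mul (h1 v' i)
            (Submodule.mem_span_singleton_self _))) (Submodule.mem_sup_left (h1 v i))
      exact ⟨Ψ, p1, p2, by omega⟩
  obtain ⟨U, -, X, h⟩ := key (r + 1)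
  obtain ⟨e, he⟩ := hr X
  obtain ⟨Φ, -, -, h3⟩ := h X le_rfl e he
  have := (LinearMap.ker Φ).finrank_le
  rw [finrank_fintype_fun_eq_card, Fintype.card_fin] at this
  omega

/-- a common denominator of bounded degree -/
theorem denom {ι : Type} {h : ι → F} (hh : IntermediateField.adjoin E (range h) = ⊤)
    {U : Submodule E F} (hU : U.FG) : ∃ (q : F) (n : ℕ), q ≠ 0 ∧ ∀ u ∈ U,
      ∃ p : MvPolynomial ι E, p.totalDegree ≤ n ∧ MvPolynomial.aeval h p = u * q := by
  obtain ⟨s, rfl⟩ := hU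
  classical
  have one : ∀ u : F, ∃ p q : MvPolynomial ι E, MvPolynomial.aeval h q ≠ 0 ∧
      MvPolynomial.aeval h p = u * MvPolynomial.aeval h q := fun u => by
    obtain ⟨p, q, e⟩ := (IntermediateField.mem_adjoin_range_iff E h u).1 (hh.ge trivial)
    by_cases q0 : MvPolynomial.aeval h q = 0
    · exact ⟨0, 1, by simp, by simp [e, q0]⟩
    · exact ⟨p, q, q0, by rw [e, div_mul_cancel₀ _ q0]⟩
  choose p q hq hp using one
  refine ⟨MvPolynomial.aeval h (∏ u ∈ s, q u),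
    s.sup fun u => (p u * ∏ w ∈ s.erase u, q w).totalDegree, ?_, fun u hu => ?_⟩
  · rw [map_prod]
    exact Finset.prod_ne_zero_iff.2 fun u _ => hq u
  induction hu using Submodule.span_induction with
  | mem u hu =>
    refine ⟨_, Finset.le_sup (f := fun u => (p u * ∏ w ∈ s.erase u, q w).totalDegree) hu, ?_⟩
    rw [← Finset.mul_prod_erase s q hu, map_mul, map_mul, hp, mul_assoc]
  | zero => exact ⟨0, by simp, by simp⟩
  | add a b _ _ ha hb =>
    obtain ⟨pa, a1, a2⟩ := ha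
    obtain ⟨pb, b1, b2⟩ := hb
    exact ⟨pa + pb, (MvPolynomial.totalDegree_add _ _).trans (max_le a1 b1), by
      rw [map_add, a2, b2, add_mul]⟩
  | smul c a _ ha =>
    obtain ⟨pa, a1, a2⟩ := ha
    exact ⟨c • pa, (MvPolynomial.totalDegree_smul_le _ _).trans a1, by
      rw [map_smul, a2, smul_mul_assoc]⟩

/-- DEG: ratios at a fixed cost are quotients of polynomials of bounded degree. -/
theorem deg {ι : Type} {h : ι → F} (hh : IntermediateField.adjoin E (range h) = ⊤)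
    (Gam : ℕ → ℕ → Set F)
    (mul : ∀ x c x' c', ∀ G ∈ Gam x c, ∀ G' ∈ Gam x' c', G * G' ∈ Gam (x + x') (c + c'))
    {c0 : ℕ} (fill : ∀ x, ∃ g ∈ Gam x c0, g ≠ 0)
    (bt : ∀ c, ∃ r, ∀ x, ∃ e : Fin r → F, ∀ G ∈ Gam x c, G ∈ Submodule.span E (range e)) (c : ℕ) :
    ∃ n, ∀ x, ∀ G ∈ Gam x c, ∀ G' ∈ Gam x c, G' ≠ 0 → ∃ p p' : MvPolynomial ι E,
      p.totalDegree ≤ n ∧ p'.totalDegree ≤ n ∧ MvPolynomial.aeval h p' ≠ 0 ∧
      G * MvPolynomial.aeval h p' = G' * MvPolynomial.aeval h p := by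
  choose g hg g0 using fill
  obtain ⟨r, hr⟩ := bt (c + c0)
  obtain ⟨U, hU, H⟩ := ratio (E := E) (fun x => Gam x c) (fun x => Gam x (c + c0)) g g0
    (fun x y G hG => mul _ _ _ _ G hG _ (hg y)) hr
  obtain ⟨q, n, q0, hq⟩ := denom hh hU
  refine ⟨n, fun x G hG G' hG' h0 => ?_⟩
  obtain ⟨u, hu, u', hu', u0, e⟩ := H x G hG G' hG' h0
  obtain ⟨p, p1, p2⟩ := hq u hu
  obtain ⟨p', p1', p2'⟩ := hq u' hu'
  exact ⟨p, p', p1, p1', p2' ▸ mul_ne_zero u0 q0, by rw [p2, p2', ← mul_assoc, e, mul_assoc]⟩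

end Pool.Agent.Lib.KB.A26
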