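import Pool.Agent.Lib.A35.Dual
import Pool.Agent.Lib.A35.Det

/-! One multiplier carries all coordinates over a subfield into a graded family. -/

open Module Set Pool.Agent.Lib.A35

noncomputable section

namespace Pool.Agent.Lib.KB.A26

section der
variable {k K : Type} [Field k] [CharZero k] [Field K] [Algebra k K]

/-- a derivation is a combination of the dual derivations -/
theorem comb {τ : Type} [Fintype τ] [DecidableEq τ] {t : τ → K} (ht : IsTranscendenceBasis k t)
    {d : τ → Derivation k K K} (hd : ∀ i j, d i (t j) = if i = j then 1 else 0)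
    (δ : Derivation k K K) (x : K) : δ x = ∑ i, δ (t i) * d i x := by
  have : CharZero K := charZero_of_injective_algebraMap (algebraMap k K).injective
  have := ht.isAlgebraic
  have h := T.der_eq_zero_of_isAlgebraic (δ - ∑ i, δ (t i) • d i) (range t) (by
    rintro _ ⟨j, rfl⟩
    simp [T.sum_smul_apply, hd])
  have := DFunLike.congr_fun h x
  simpa [T.sum_smul_apply, sub_eq_zero] using this

theorem exists_one {x : K} (hx : Transcendental k x) : ∃ δ : Derivation k K K, δ x = 1 := by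
  classical
  obtain ⟨s, hs, hb⟩ := exists_isTranscendenceBasis_superset (R := k) (s := {x})
    (algebraicIndependent_unique_type_iff.2 hx)
  obtain ⟨d, hd⟩ := Du.exists_dual hb
  exact ⟨d ⟨x, hs rfl⟩, by simpa using hd ⟨x, hs rfl⟩ ⟨x, hs rfl⟩⟩

/-- finitely many derivations whose constants are the algebraic elements -/
theorem exists_vert {κ : ℕ} {z : Fin κ → K} [Algebra.IsAlgebraic (Algebra.adjoin k (range z)) K] :
    ∃ (w : ℕ) (d : Fin w → Derivation k K K), ∀ x, (∀ i, d i x = 0) → IsAlgebraic k x := by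
  obtain ⟨t, hts, ht⟩ := exists_isTranscendenceBasis_subset (R := k) (range z)
  have : Finite t := (finite_range z).subset hts
  obtain ⟨w, ⟨e⟩⟩ := Finite.exists_equiv_fin t
  have ht' := ht.comp_equiv e.symm
  obtain ⟨d, hd⟩ := Du.exists_dual ht'
  refine ⟨w, d, fun x hx => by_contra fun h => ?_⟩
  obtain ⟨δ, h1⟩ := exists_one h
  rw [comb ht' hd] at h1
  simp [hx] at h1

end der

variable {k F : Type} [Field k] [Field F] [Algebra k F]

/-- a multiplicative family -/
structure Fam (Gam : ℕ → ℕ → Submodule k F) : Prop where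
  mul : ∀ x c x' c', ∀ G ∈ Gam x c, ∀ G' ∈ Gam x' c', G * G' ∈ Gam (x + x') (c + c')
  mono : ∀ x c c', c ≤ c' → Gam x c ≤ Gam x c'
  one : (1 : F) ∈ Gam 0 0

variable {Gam : ℕ → ℕ → Submodule k F}

theorem Fam.common (h : Fam Gam) (fr : ∀ μ : F, ∃ a, ∃ p ∈ Gam 0 a, ∃ q ∈ Gam 0 a, q ≠ 0 ∧ q * μ = p)
    {ι : Type} (μ : ι → F) (s : Finset ι) :
    ∃ A be, be ≠ 0 ∧ be ∈ Gam 0 A ∧ ∀ i ∈ s, be * μ i ∈ Gam 0 A := by
  classical
  induction s using Finset.induction_on with
  | empty => exact ⟨0, 1, one_ne_zero, h.one, by simp⟩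
  | insert i s _ ih =>
    obtain ⟨A, be, b0, b1, b2⟩ := ih
    obtain ⟨a, p, hp, q, hq, q0, e⟩ := fr (μ i)
    refine ⟨A + a, be * q, mul_ne_zero b0 q0, h.mul 0 _ 0 _ _ b1 _ hq, fun j hj => ?_⟩
    rcases Finset.mem_insert.1 hj with rfl | hj
    · rw [mul_assoc, e]
      exact h.mul 0 _ 0 _ _ b1 _ hp
    · rw [mul_right_comm]
      exact h.mul 0 _ 0 _ _ (b2 j hj) _ hq

theorem Fam.prod (h : Fam Gam) {ι : Type} (s : Finset ι) {Q : ι → ℕ} {l : ℕ} {f : ι → F}
    (hf : ∀ i ∈ s, f i ∈ Gam (Q i) l) : ∏ i ∈ s, f i ∈ Gam (∑ i ∈ s, Q i) (s.card * l) := by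
  classical
  induction s using Finset.induction_on with
  | empty => simpa using h.one
  | insert i s hi ih =>
    rw [Finset.prod_insert hi, Finset.sum_insert hi, Finset.card_insert_of_notMem hi, add_mul,
      one_mul, add_comm _ l]
    exact h.mul _ _ _ _ _ (hf i (Finset.mem_insert_self _ _)) _
      (ih fun j hj => hf j (Finset.mem_insert_of_mem hj))

section om
variable {E : Type} [Field E] [Algebra E F]

/-- elimination with derivations whose constants are `E` -/
theorem Fam.kill (h : Fam Gam) {w : ℕ} (d : Fin w → Derivation E F F) {be : F} (b0 : be ≠ 0)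
    (hc : ∀ x, (∀ i, d i x = 0) → x ∈ range (algebraMap E F))
    (hd : ∀ c, ∃ c', ∀ i x, ∀ u ∈ Gam x c, ∀ v ∈ Gam x c,
      be * (u * d i v - v * d i u) ∈ Gam (x + x) c') (r : ℕ) :
    ∀ c, ∃ l, ∀ (X : ℕ) (I : Type) (e : Fin r → I → F) (e0 : I → F), (∀ j i, e j i ∈ Gam X c) →
      e0 ∉ Submodule.span E (range e) → ∃ (Q : ℕ) (Δ : (I → F) →ₗ[E] F), (∀ j, Δ (e j) = 0) ∧
        Δ e0 ≠ 0 ∧ ∀ v, (∀ i, v i ∈ Gam X c) → Δ v ∈ Gam Q l := by
  induction r with
  | zero =>
    refine fun c => ⟨c, fun X I e e0 _ h0 => ?_⟩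
    obtain ⟨i, hi⟩ := Function.ne_iff.1 (show e0 ≠ 0 from fun a => h0 (a ▸ zero_mem _))
    exact ⟨X, LinearMap.proj i, fun j => j.elim0, hi, fun v hv => hv i⟩
  | succ r ih =>
    intro c
    obtain ⟨c', hc'⟩ := hd c
    obtain ⟨l1, h1⟩ := ih c
    obtain ⟨l2, h2⟩ := ih (max c' (c + c))
    refine ⟨max l1 l2, fun X I e e0 he h0 => ?_⟩
    have sub : Submodule.span E (range fun j : Fin r => e j.succ) ≤ Submodule.span E (range e) :=
      Submodule.span_mono (range_subset_iff.2 fun j => ⟨_, rfl⟩)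
    by_cases z : e 0 = 0
    · obtain ⟨Q, Δ, p1, p2, p3⟩ := h1 X I (fun j => e j.succ) e0 (fun j => he _) fun a => h0 (sub a)
      exact ⟨Q, Δ, fun j => Fin.cases (by rw [z, map_zero]) p1 j, p2,
        fun v hv => h.mono _ _ _ (le_max_left _ _) (p3 v hv)⟩
    obtain ⟨i0, hi⟩ := Function.ne_iff.1 z
    have u0 : e 0 i0 ≠ 0 := hi
    let Φ : (I → F) →ₗ[E] (Fin w ⊕ I → F) :=
      { toFun := fun v => Sum.elim (fun l => be * (e 0 i0 * d l (v i0) - v i0 * d l (e 0 i0)))
          fun i => v i * e 0 i0 - v i0 * e 0 i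
        map_add' := fun a b => funext fun i => by
          cases i <;> simp only [Sum.elim_inl, Sum.elim_inr, Pi.add_apply, map_add] <;> ring
        map_smul' := fun a b => funext fun i => by
          cases i <;> simp only [Sum.elim_inl, Sum.elim_inr, Pi.smul_apply, RingHom.id_apply,
            Derivation.map_smul] <;> simp only [Algebra.smul_def] <;> ring }
    have f1 : ∀ v l, Φ v (.inl l) = be * (e 0 i0 * d l (v i0) - v i0 * d l (e 0 i0)) :=
      fun _ _ => rfl
    have f2 : ∀ v i, Φ v (.inr i) = v i * e 0 i0 - v i0 * e 0 i := fun _ _ => rfl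
    have m : ∀ v, (∀ i, v i ∈ Gam X c) → ∀ i, Φ v i ∈ Gam (X + X) (max c' (c + c)) := by
      rintro v hv (l | i)
      · exact h.mono _ _ _ (le_max_left _ _) (hc' l X _ (he 0 i0) _ (hv i0))
      · exact h.mono _ _ _ (le_max_right _ _)
          (sub_mem (h.mul _ _ _ _ _ (hv i) _ (he 0 i0)) (h.mul _ _ _ _ _ (hv i0) _ (he 0 i)))
    have ker : ∀ v, Φ v = 0 → v ∈ Submodule.span E (range e) := fun v hv => by
      obtain ⟨γ, hγ⟩ := hc (v i0 / e 0 i0) fun l => by
        have a := (mul_eq_zero.1 ((f1 v l).symm.trans (congrFun hv _))).resolve_left b0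
        rw [Derivation.leibniz_div, smul_eq_mul, smul_eq_mul, smul_eq_mul, a, mul_zero]
      have : v = γ • e 0 := funext fun i => by
        have a := (f2 v i).symm.trans (congrFun hv _)
        rw [Pi.smul_apply, Algebra.smul_def, hγ]
        field_simp
        exact sub_eq_zero.1 a
      exact this ▸ Submodule.smul_mem _ _ (Submodule.subset_span ⟨0, rfl⟩)
    obtain ⟨Q, Δ, p1, p2, p3⟩ := h2 (X + X) (Fin w ⊕ I) (fun j => Φ (e j.succ)) (Φ e0)
      (fun j => m _ (he _)) fun a => by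
        rw [show (range fun j : Fin r => Φ (e j.succ)) = Φ '' range fun j : Fin r => e j.succ from
          range_comp Φ _, Submodule.span_image] at a
        obtain ⟨v, hv, b⟩ := a
        have := add_mem (ker (e0 - v) (by rw [map_sub, b, sub_self])) (sub hv)
        rw [sub_add_cancel] at this
        exact h0 this
    refine ⟨Q, Δ.comp Φ, fun j => Fin.cases ?_ p1 j, p2,
      fun v hv => h.mono _ _ _ (le_max_right _ _) (p3 _ (m v hv))⟩
    have : Φ (e 0) = 0 := funext fun i => by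
      cases i
      · rw [f1, sub_self, mul_zero]; rfl
      · rw [f2, mul_comm, sub_self]; rfl
    rw [LinearMap.comp_apply, this, map_zero]

/-- OM from vertical derivations -/
theorem Fam.om0 (h : Fam Gam) {w : ℕ} (d : Fin w → Derivation E F F) {be : F} (b0 : be ≠ 0)
    (hc : ∀ x, (∀ i, d i x = 0) → x ∈ range (algebraMap E F))
    (hd : ∀ c, ∃ c', ∀ i x, ∀ u ∈ Gam x c, ∀ v ∈ Gam x c,
      be * (u * d i v - v * d i u) ∈ Gam (x + x) c') (c ρ : ℕ) :
    ∃ l, ∀ (X : ℕ) (e : Fin ρ → F), LinearIndependent E e → (∀ j, e j ∈ Gam X c) →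
      ∃ Q, ∃ Om ∈ Gam Q l, Om ≠ 0 ∧ ∀ y : Fin ρ → E, ∑ j, y j • e j ∈ Gam X c →
        ∀ j, algebraMap E F (y j) * Om ∈ Gam Q l := by
  cases ρ with
  | zero => exact ⟨0, fun _ _ _ _ => ⟨0, 1, h.one, one_ne_zero, fun _ _ j => j.elim0⟩⟩
  | succ r =>
  obtain ⟨l, hl⟩ := h.kill d b0 hc hd r c
  refine ⟨(r + 1) * l, fun X e hi he => ?_⟩
  have one : ∀ j, ∃ (Q : ℕ) (Δ : F →ₗ[E] F), (∀ i, i ≠ j → Δ (e i) = 0) ∧ Δ (e j) ≠ 0 ∧
      ∀ v ∈ Gam X c, Δ v ∈ Gam Q l := fun j => by
    let c1 : F →ₗ[E] Unit → F := LinearMap.pi fun _ => LinearMap.id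
    obtain ⟨Q, Δ, p1, p2, p3⟩ := hl X Unit (fun i => c1 (e (j.succAbove i))) (c1 (e j))
      (fun i _ => he _) fun a => by
        have b := Submodule.mem_map_of_mem (f := (LinearMap.proj () : (Unit → F) →ₗ[E] F)) a
        rw [Submodule.map_span, ← range_comp] at b
        refine hi.notMem_span_image (s := {j}ᶜ) (x := j) (by simp) (Submodule.span_mono ?_ b)
        rintro _ ⟨i, rfl⟩
        exact ⟨_, Fin.succAbove_ne j i, rfl⟩
    refine ⟨Q, Δ.comp c1, fun i hi => ?_, p2, fun v hv => p3 _ fun _ => hv⟩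
    obtain ⟨i, rfl⟩ := Fin.exists_succAbove_eq hi
    exact p1 i
  choose Q Δ p1 p2 p3 using one
  refine ⟨∑ j, Q j, ∏ j, Δ j (e j), ?_, Finset.prod_ne_zero_iff.2 fun j _ => p2 j,
    fun y hy j => ?_⟩
  · simpa using h.prod Finset.univ fun j _ => p3 j _ (he j)
  · have a := p3 j _ hy
    rw [map_sum, Finset.sum_eq_single j (fun i _ hi => by rw [map_smul, p1 j i hi, smul_zero])
      (by simp), map_smul, Algebra.smul_def] at a
    have b := h.mul _ _ _ _ _ a _ (h.prod (Finset.univ.erase j) fun i _ => p3 i _ (he i))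
    rw [Finset.add_sum_erase _ Q (Finset.mem_univ j), mul_assoc,
      Finset.mul_prod_erase _ (fun i => Δ i (e i)) (Finset.mem_univ j)] at b
    refine h.mono _ _ _ (le_of_eq ?_) b
    simp [add_mul, add_comm]

end om

/-- OM. -/
theorem Fam.om [CharZero k] (h : Fam Gam) {E : Type} [Field E] [Algebra k E] [Algebra E F]
    [IsScalarTower k E F] (hE : ∀ x : F, IsAlgebraic E x → x ∈ range (algebraMap E F))
    {κ : ℕ} {z : Fin κ → F} (hz : IsTranscendenceBasis k z) {D : Fin κ → Derivation k F F}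
    (hD : ∀ i j, D i (z j) = if i = j then 1 else 0)
    (der : ∀ c, ∃ c', ∀ i x, ∀ u ∈ Gam x c, ∀ v ∈ Gam x c, u * D i v - v * D i u ∈ Gam (x + x) c')
    (fr : ∀ μ : F, ∃ a, ∃ p ∈ Gam 0 a, ∃ q ∈ Gam 0 a, q ≠ 0 ∧ q * μ = p) (c r : ℕ) :
    ∃ l, ∀ (X ρ : ℕ) (e : Fin ρ → F), ρ ≤ r → LinearIndependent E e → (∀ j, e j ∈ Gam X c) →
      ∃ Q, ∃ Om ∈ Gam Q l, Om ≠ 0 ∧ ∀ y : Fin ρ → E, ∑ j, y j • e j ∈ Gam X c →
        ∀ j, algebraMap E F (y j) * Om ∈ Gam Q l := by
  have : CharZero E := charZero_of_injective_algebraMap (algebraMap k E).injective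
  have := hz.isAlgebraic
  have : Algebra.IsAlgebraic (Algebra.adjoin E (range z)) F := ⟨fun x => by
    let φ : Algebra.adjoin k (range z) →+* Algebra.adjoin E (range z) :=
      (algebraMap _ F).codRestrict _ fun a => (Algebra.adjoin_le
        (S := (Algebra.adjoin E (range z)).restrictScalars k) Algebra.subset_adjoin) a.2
    exact (Algebra.IsAlgebraic.isAlgebraic (R := Algebra.adjoin k (range z)) x).ringHom_of_comp_eq
      φ (RingHom.id F)
      (fun a b e => Subtype.ext (congrArg (fun t : Algebra.adjoin E (range z) => (t : F)) e)) rfl⟩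
  obtain ⟨w, d, hd⟩ := exists_vert (k := E) (z := z)
  obtain ⟨A, be, b0, -, hb⟩ := h.common fr (fun p : Fin w × Fin κ => d p.1 (z p.2)) Finset.univ
  have H := h.om0 d b0 (fun x hx => hE x (hd x hx)) (fun c => by
    obtain ⟨c', hc⟩ := der c
    refine ⟨A + c', fun l x u hu v hv => ?_⟩
    have e := comb hz hD ((d l).restrictScalars k)
    simp only [Derivation.restrictScalars_apply] at e
    rw [e u, e v, Finset.mul_sum, Finset.mul_sum, ← Finset.sum_sub_distrib, Finset.mul_sum]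
    refine sum_mem fun i _ => ?_
    have := h.mul _ _ _ _ _ (hb (l, i) (Finset.mem_univ _)) _ (hc i x u hu v hv)
    rw [zero_add] at this
    rwa [show be * (u * (d l (z i) * D i v) - v * (d l (z i) * D i u)) =
      be * d l (z i) * (u * D i v - v * D i u) by ring]) c
  choose l hl using H
  refine ⟨(Finset.range (r + 1)).sup l, fun X ρ e hρ hi he => ?_⟩
  have m := h.mono (c := l ρ) (c' := (Finset.range (r + 1)).sup l)
  have le := Finset.le_sup (f := l) (Finset.mem_range.2 (Nat.lt_succ_of_le hρ))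
  obtain ⟨Q, Om, o1, o2, o3⟩ := hl ρ X e hi he
  exact ⟨Q, Om, m Q le o1, o2, fun y hy j => m Q le (o3 y hy j)⟩

end Pool.Agent.Lib.KB.A26
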